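import Pool.Agent.PSV.StmtsS
import Pool.Agent.Helper94_HIK.DZC

/-!
# Squad PSV, row PSC: calculus of power saving
-/

set_option autoImplicit false

namespace Pool.Agent.PSV.H24

open Polynomial NumberField Pool.Agent.HIK Pool.Agent.HIK.H94

theorem psav_mono (box : BoxStmt) {k : Type} [Field k] [NumberField k] {S T : Set (𝓞 k)}
    (hST : S ⊆ T) (hT : PSav k T) : PSav k S := by
  obtain ⟨δ, C, hδ, hC⟩ := hT
  refine ⟨δ, C, hδ, fun X hX => le_trans ?_ (hC X hX)⟩
  have := fin_le box T X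
  have h1 : Nat.card {a : 𝓞 k // a ∈ S ∧ house (a : k) ≤ X} ≤
      Nat.card {a : 𝓞 k // a ∈ T ∧ house (a : k) ≤ X} :=
    Nat.card_le_card_of_injective (fun n => ⟨n.1, hST n.2.1, n.2.2⟩)
      (fun a b hab => Subtype.ext (by simpa using hab))
  exact_mod_cast h1

theorem pow_le {X : ℕ} (hX : 1 ≤ X) {a b : ℝ} (h : a ≤ b) : (X : ℝ) ^ a ≤ (X : ℝ) ^ b :=
  Real.rpow_le_rpow_of_exponent_le (by exact_mod_cast hX) h

theorem psav_union (box : BoxStmt) {k : Type} [Field k] [NumberField k] {S T : Set (𝓞 k)}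
    (hS : PSav k S) (hT : PSav k T) : PSav k (S ∪ T) := by
  obtain ⟨δ1, C1, hδ1, hC1⟩ := hS
  obtain ⟨δ2, C2, hδ2, hC2⟩ := hT
  refine ⟨min δ1 δ2, C1 + C2, lt_min hδ1 hδ2, fun X hX => ?_⟩
  have f1 := fin_le box S X
  have f2 := fin_le box T X
  have h1 : Nat.card {a : 𝓞 k // a ∈ S ∪ T ∧ house (a : k) ≤ X} ≤
      Nat.card {a : 𝓞 k // a ∈ S ∧ house (a : k) ≤ X} +
        Nat.card {a : 𝓞 k // a ∈ T ∧ house (a : k) ≤ X} := by
    classical
    rw [← Nat.card_sum]
    refine Nat.card_le_card_of_injective (fun n => if h : n.1 ∈ S then Sum.inl ⟨n.1, h, n.2.2⟩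
      else Sum.inr ⟨n.1, n.2.1.resolve_left h, n.2.2⟩) ?_
    intro a b hab
    by_cases ha : a.1 ∈ S <;> by_cases hb : b.1 ∈ S
    · simp only [ha, hb, dite_true, Sum.inl.injEq, Subtype.mk.injEq] at hab
      exact Subtype.ext hab
    · simp [ha, hb] at hab
    · simp [ha, hb] at hab
    · simp only [ha, hb, dite_false, Sum.inr.injEq, Subtype.mk.injEq] at hab
      exact Subtype.ext hab
  have h2 : (Nat.card {a : 𝓞 k // a ∈ S ∪ T ∧ house (a : k) ≤ X} : ℝ) ≤
      Nat.card {a : 𝓞 k // a ∈ S ∧ house (a : k) ≤ X} +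
        Nat.card {a : 𝓞 k // a ∈ T ∧ house (a : k) ≤ X} := by
    exact_mod_cast h1
  have e1 := hC1 X hX
  have e2 := hC2 X hX
  have p1 := pow_le hX (sub_le_sub_left (min_le_left δ1 δ2) (Module.finrank ℚ k : ℝ))
  have p2 := pow_le hX (sub_le_sub_left (min_le_right δ1 δ2) (Module.finrank ℚ k : ℝ))
  have q1 := mul_le_mul_of_nonneg_left p1 (Nat.cast_nonneg (α := ℝ) C1)
  have q2 := mul_le_mul_of_nonneg_left p2 (Nat.cast_nonneg (α := ℝ) C2)
  push_cast
  linarith

theorem psav_finite {k : Type} [Field k] [NumberField k] (S : Set (𝓞 k))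
    (hS : S.Finite) : PSav k S := by
  refine ⟨1, Nat.card S, one_pos, fun X hX => ?_⟩
  have hfin : Finite S := hS.to_subtype
  have h1 : Nat.card {a : 𝓞 k // a ∈ S ∧ house (a : k) ≤ X} ≤ Nat.card S :=
    Nat.card_le_card_of_injective (fun n => (⟨n.1, n.2.1⟩ : S))
      (fun a b hab => Subtype.ext (by simpa using hab))
  have h2 : (Nat.card {a : 𝓞 k // a ∈ S ∧ house (a : k) ≤ X} : ℝ) ≤ Nat.card S := by
    exact_mod_cast h1
  have hm : (1 : ℝ) ≤ (Module.finrank ℚ k : ℝ) := by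
    exact_mod_cast (Module.finrank_pos : 0 < Module.finrank ℚ k)
  have h3 : (1 : ℝ) ≤ (X : ℝ) ^ ((Module.finrank ℚ k : ℝ) - 1) :=
    Real.one_le_rpow (by exact_mod_cast hX) (by linarith)
  have h4 := mul_le_mul_of_nonneg_left h3 (Nat.cast_nonneg (α := ℝ) (Nat.card S))
  linarith

theorem psav_iUnion (box : BoxStmt) {k : Type} [Field k] [NumberField k] {ι : Type} [Finite ι]
    (S : ι → Set (𝓞 k)) (h : ∀ i, PSav k (S i)) : PSav k (⋃ i, S i) := by
  classical
  cases nonempty_fintype ι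
  have : ∀ s : Finset ι, PSav k (⋃ i ∈ s, S i) := by
    intro s
    induction s using Finset.induction_on with
    | empty => simpa using psav_finite (∅ : Set (𝓞 k)) Set.finite_empty
    | insert a s ha ih =>
      rw [Finset.set_biUnion_insert]
      exact psav_union box (h a) ih
  simpa using this Finset.univ

theorem psav_dz {k : Type} [Field k] [NumberField k] (S : Set (𝓞 k)) (h : PSav k S) :
    DZ k S := by
  obtain ⟨δ, C, hδ, hC⟩ := h
  apply dens_of
  intro ε hε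
  have ht : Filter.Tendsto (fun X : ℕ => (C : ℝ) * (X : ℝ) ^ (-δ)) Filter.atTop (nhds 0) := by
    have := ((tendsto_rpow_neg_atTop hδ).comp tendsto_natCast_atTop_atTop).const_mul (C : ℝ)
    simpa using this
  have he := (ht.eventually (gt_mem_nhds hε)).and (Filter.eventually_ge_atTop 1)
  obtain ⟨X0, hX0⟩ := Filter.eventually_atTop.1 he
  refine ⟨X0, fun X hX => ?_⟩
  obtain ⟨h1, h2⟩ := hX0 X hX
  have hXpos : (0 : ℝ) < X := by
    have : 0 < X := by omega
    exact_mod_cast this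
  have hp : (0 : ℝ) < (X : ℝ) ^ Module.finrank ℚ k := by positivity
  have e1 : (X : ℝ) ^ ((Module.finrank ℚ k : ℝ) - δ) =
      (X : ℝ) ^ (-δ) * (X : ℝ) ^ Module.finrank ℚ k := by
    rw [← Real.rpow_natCast, ← Real.rpow_add hXpos]
    congr 1
    ring
  calc (Nat.card {a : 𝓞 k // a ∈ S ∧ house (a : k) ≤ X} : ℝ) ≤
        C * (X : ℝ) ^ ((Module.finrank ℚ k : ℝ) - δ) := hC X h2
    _ = (C * (X : ℝ) ^ (-δ)) * (X : ℝ) ^ Module.finrank ℚ k := by rw [e1]; ring
    _ ≤ ε * (X : ℝ) ^ Module.finrank ℚ k := mul_le_mul_of_nonneg_right h1.le hp.le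

theorem psc (box : BoxStmt) : PscStmt := by
  intro k _ _
  exact ⟨fun _ _ h hT => psav_mono box h hT, fun _ _ S h => psav_iUnion box S h,
    fun S hS => psav_finite S hS, fun S h => psav_dz S h⟩

end Pool.Agent.PSV.H24
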